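import Pool.Agent.Y33.SM.Stm
import Pool.Agent.Y33.LG.Real

set_option autoImplicit false

/-!
# Groups with uniform detours are Morse limited (project SM of helper33)
-/

namespace Pool.Agent.Y375.SM.ML

open Pool.Agent.Y33.SM Pool.Agent.H659R3.MorseLim Pool.Agent.Y33.LG Pool.Agent.Y33.Free

/-- discrete intermediate values -/
theorem ivt (u : ℕ → ℝ) (a b : ℕ) (hab : a ≤ b) (δ : ℝ)
    (h : ∀ k, a ≤ k → k < b → |u (k + 1) - u k| ≤ δ) (v : ℝ) (ha : u a ≤ v + δ)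
    (hb : v ≤ u b + δ) : ∃ k, a ≤ k ∧ k ≤ b ∧ |u k - v| ≤ δ := by
  classical
  have hex : ∃ k, a ≤ k ∧ v ≤ u k + δ := ⟨b, hab, hb⟩
  obtain ⟨h1, h2⟩ := Nat.find_spec hex
  have hle : Nat.find hex ≤ b := Nat.find_min' hex ⟨hab, hb⟩
  have hmin : ∀ k, k < Nat.find hex → ¬ (a ≤ k ∧ v ≤ u k + δ) := fun k hk => Nat.find_min hex hk
  generalize hK : Nat.find hex = K at *
  refine ⟨K, h1, hle, ?_⟩
  rcases Nat.lt_or_ge a K with hlt | hge
  · obtain ⟨k, rfl⟩ : ∃ k, K = k + 1 := ⟨K - 1, by omega⟩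
    have h3 := hmin k (by omega)
    have h4 := h k (by omega) (by omega)
    have h5 : u k + δ < v := by
      by_contra hcon
      exact h3 ⟨by omega, not_lt.1 hcon⟩
    rw [abs_le] at h4 ⊢
    constructor <;> linarith [h4.1, h4.2]
  · obtain rfl : K = a := by omega
    rw [abs_le]
    constructor <;> linarith

/-- the reversed form -/
theorem ivt' (u : ℕ → ℝ) (a b : ℕ) (hab : a ≤ b) (δ : ℝ)
    (h : ∀ k, a ≤ k → k < b → |u (k + 1) - u k| ≤ δ) (v : ℝ) (ha : v ≤ u a + δ)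
    (hb : u b ≤ v + δ) : ∃ k, a ≤ k ∧ k ≤ b ∧ |u k - v| ≤ δ := by
  obtain ⟨k, h1, h2, h3⟩ := ivt (fun k => - u k) a b hab δ (fun k hk hk' => by
    have := h k hk hk'
    rw [← abs_neg] at this
    convert this using 2
    ring) (-v) (by linarith) (by linarith)
  refine ⟨k, h1, h2, ?_⟩
  rw [← abs_neg] at h3
  convert h3 using 2
  ring

section

variable {G : Type} [Group G] {A : FinGen G}

theorem near {M : Pool.Agent.Y33.LG.Gauge} {I : Set ℝ} {γ : ℝ → Cay A}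
    (hM : Pool.Agent.Y33.LG.IsMorse (X := Cay A) M I γ)
    {m L : ℕ} (hm : 1 ≤ m) {ρ : ℕ → G} (hρ : QG A m L ρ) {t0 t1 : ℝ} (ht0 : t0 ∈ I) (ht1 : t1 ∈ I)
    (h0 : ρ 0 = γ t0) (hL : ρ L = γ t1) {k : ℕ} (hk : k ≤ L) :
    ∃ τ ∈ I, (A.dist (G := G) (ρ k) (γ τ) : ℝ) ≤
      ((M (m : ℝ) (2 * (m : ℝ)) : NNReal) : ℝ) + 1 := by
  have hq := real_of_disc hm hρ
  have h1 := hM m (2 * m) (by exact_mod_cast hm) (by positivity) 0 L (Nat.cast_nonneg _)
    (fun s => ρ ⌊s⌋₊) hq ⟨t0, ht0, by simp only [Nat.floor_zero]; exact h0.symm⟩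
    ⟨t1, ht1, by simp only [Nat.floor_natCast]; exact hL.symm⟩ k
    ⟨Nat.cast_nonneg _, by exact_mod_cast hk⟩
  simp only [Nat.floor_natCast] at h1
  have h2 := lt_of_le_of_lt h1 (lt_add_one _)
  have hne : (γ '' I).Nonempty := ⟨_, t0, ht0, rfl⟩
  obtain ⟨y, ⟨τ, hτ, rfl⟩, h3⟩ := (Metric.infDist_lt_iff hne).1 h2
  exact ⟨τ, hτ, h3.le⟩

theorem path_dist {σ : ℕ → G} {N : ℕ} (h : ∀ k, k < N → A.dist (σ k) (σ (k + 1)) ≤ 1) (a b : ℕ)
    (hab : a ≤ b) (hb : b ≤ N) : A.dist (σ a) (σ b) ≤ b - a := by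
  induction b with
  | zero =>
    obtain rfl : a = 0 := by omega
    rw [A.dist_self]
  | succ b ih =>
    rcases Nat.lt_or_ge b a with h1 | h1
    · obtain rfl : a = b + 1 := by omega
      rw [A.dist_self]
      omega
    · have h2 := ih h1 (by omega)
      have h3 := h b (by omega)
      have h4 := A.dist_triangle (σ a) (σ b) (σ (b + 1))
      omega

/-- a path with changed end values -/
theorem qg_change {σ : ℕ → G} {N Λ e : ℕ} (h : ∀ k, k < N → A.dist (σ k) (σ (k + 1)) ≤ 1)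
    (hΛ : ∀ k k', k ≤ k' → k' ≤ N → k' - k ≤ Λ * A.dist (σ k) (σ k')) {p q : G}
    (hp : A.dist p (σ 0) ≤ e) (hq : A.dist (σ N) q ≤ e) :
    QG A (Λ + 2 * e * (Λ + 1) + 2) (N + 2)
      (fun k => if k = 0 then p else if k = N + 2 then q else σ (k - 1)) := by
  set ρ : ℕ → G := fun k => if k = 0 then p else if k = N + 2 then q else σ (k - 1) with hρ
  set c : ℕ → ℕ := fun k => min (k - 1) N with hc
  have hcl : ∀ k, k ≤ N + 2 → A.dist (ρ k) (σ (c k)) ≤ e := by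
    intro k hk
    simp only [hρ, hc]
    split_ifs with h1 h2
    · subst h1
      simpa using hp
    · subst h2
      have : min (N + 2 - 1) N = N := by omega
      rw [this, A.dist_comm]
      exact hq
    · have : min (k - 1) N = k - 1 := by omega
      rw [this, A.dist_self]
      exact Nat.zero_le _
  intro a k hak
  have h1 := hcl a (by omega)
  have h2 := hcl (a + k) hak
  have hcc : c a ≤ c (a + k) := by simp only [hc]; omega
  have hcN : c (a + k) ≤ N := by simp only [hc]; omega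
  have hck : c (a + k) - c a ≤ k := by simp only [hc]; omega
  have hck' : k ≤ c (a + k) - c a + 2 := by simp only [hc]; omega
  have h3 := path_dist h (c a) (c (a + k)) hcc hcN
  have h4 := hΛ (c a) (c (a + k)) hcc hcN
  have t1 := A.dist_triangle (ρ a) (σ (c a)) (ρ (a + k))
  have t2 := A.dist_triangle (σ (c a)) (σ (c (a + k))) (ρ (a + k))
  have s2 := A.dist_comm (σ (c (a + k))) (ρ (a + k))
  have t3 := A.dist_triangle (σ (c a)) (ρ a) (σ (c (a + k)))
  have t4 := A.dist_triangle (ρ a) (ρ (a + k)) (σ (c (a + k)))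
  have s1 := A.dist_comm (σ (c a)) (ρ a)
  constructor
  · have h5 : A.dist (ρ a) (ρ (a + k)) ≤ k + 2 * e := by omega
    have h6 : k + 2 * e ≤ (Λ + 2 * e * (Λ + 1) + 2) * k + (Λ + 2 * e * (Λ + 1) + 2) := by
      nlinarith [Nat.zero_le (Λ * k), Nat.zero_le (e * Λ * k), Nat.zero_le (e * k),
        Nat.zero_le (e * Λ)]
    exact h5.trans h6
  · have h5 : A.dist (σ (c a)) (σ (c (a + k))) ≤ A.dist (ρ a) (ρ (a + k)) + 2 * e := by omega
    have h6 : k ≤ Λ * (A.dist (ρ a) (ρ (a + k)) + 2 * e) + 2 := by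
      have := Nat.mul_le_mul_left Λ h5
      omega
    refine h6.trans ?_
    nlinarith [Nat.zero_le (e * Λ * A.dist (ρ a) (ρ (a + k))),
      Nat.zero_le (e * A.dist (ρ a) (ρ (a + k))), Nat.zero_le (e * Λ),
      Nat.zero_le (A.dist (ρ a) (ρ (a + k)))]


theorem qg_change' {σ : ℕ → G} {N Λ e : ℕ} (h : ∀ k, k < N → A.dist (σ k) (σ (k + 1)) ≤ 1)
    (hΛ : ∀ k k', k ≤ k' → k' ≤ N → k' - k ≤ Λ * A.dist (σ k) (σ k')) {p q : G}
    (hp : A.dist p (σ 0) ≤ e) (hq : A.dist (σ N) q ≤ e) :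
    ∃ ρ : ℕ → G, QG A (Λ + 2 * e * (Λ + 1) + 2) (N + 2) ρ ∧ ρ 0 = p ∧ ρ (N + 2) = q ∧
      ∀ k, k ≤ N → ρ (k + 1) = σ k := by
  refine ⟨_, qg_change h hΛ hp hq, ?_, ?_, ?_⟩
  · simp
  · simp
  · intro k hk
    rw [if_neg (by omega), if_neg (by omega), Nat.add_sub_cancel]

end

theorem t : S_ML := by
  intro G _ A Λ hdet M lam eps hlam heps
  set e0 : ℕ := ⌈((M (1 : ℕ) (2 * (1 : ℕ)) : NNReal) : ℝ)⌉₊ + 1 with he0
  set m1 : ℕ := Λ + 2 * e0 * (Λ + 1) + 2 with hm1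
  set e : ℝ := e0 + ((M (m1 : ℕ) (2 * (m1 : ℕ)) : NNReal) : ℝ) + 1 with he
  have hM0 : (0 : ℝ) ≤ ((M (m1 : ℕ) (2 * (m1 : ℕ)) : NNReal) : ℝ) := NNReal.coe_nonneg _
  have he00 : (0 : ℝ) ≤ e0 := Nat.cast_nonneg _
  have hepos : 0 ≤ e := by rw [he]; positivity
  have he0e : (e0 : ℝ) ≤ e := by rw [he]; linarith
  set δ : ℝ := lam * (2 * e + 1 + eps) with hδ
  have hδ0 : 0 ≤ δ := by rw [hδ]; positivity
  set K1 : ℝ := 2 * e + lam * δ + eps with hK1
  obtain ⟨s, hs⟩ := hdet (⌈K1⌉₊ + 1)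
  have hrK : K1 < ((⌈K1⌉₊ + 1 : ℕ) : ℝ) := by
    push_cast
    have := Nat.le_ceil K1
    linarith
  refine ⟨lam * (s + eps), ?_⟩
  intro I γ hI hq hM t1 ht1 t2 ht2
  by_contra hB
  push Not at hB
  have hlam0 : 0 < lam := by linarith
  -- time differences
  have htime : ∀ a ∈ I, ∀ b ∈ I, ∀ x : ℝ, (A.dist (G := G) (γ a) (γ b) : ℝ) ≤ x →
      |a - b| ≤ lam * (x + eps) := by
    intro a ha b hb x hx
    have h1 := (hq a ha b hb).1
    have h2 : dist (γ a) (γ b) = (A.dist (G := G) (γ a) (γ b) : ℝ) := cay_dist A _ _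
    rw [h2] at h1
    have h3 : lam⁻¹ * |a - b| ≤ x + eps := by linarith
    calc |a - b| = lam * (lam⁻¹ * |a - b|) := by
          rw [← mul_assoc, mul_inv_cancel₀ hlam0.ne', one_mul]
      _ ≤ lam * (x + eps) := mul_le_mul_of_nonneg_left h3 hlam0.le
  have hspace : ∀ a ∈ I, ∀ b ∈ I, |a - b| ≤ δ →
      (A.dist (G := G) (γ a) (γ b) : ℝ) ≤ lam * δ + eps := by
    intro a ha b hb hab
    have h1 := (hq a ha b hb).2
    have h2 : dist (γ a) (γ b) = (A.dist (G := G) (γ a) (γ b) : ℝ) := cay_dist A _ _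
    rw [h2] at h1
    have h3 := mul_le_mul_of_nonneg_left hab hlam0.le
    linarith
  -- the geodesic
  obtain ⟨g, hg, hg0, hgl⟩ := exists_geo A (γ t1 : G) (γ t2 : G)
  set l := A.dist (G := G) (γ t1) (γ t2) with hl
  have hsl : s ≤ l := by
    by_contra hcon
    push Not at hcon
    have h1 := htime t1 ht1 t2 ht2 s (by exact_mod_cast hcon.le)
    linarith
  have hgd : ∀ a b, a ≤ b → b ≤ l → A.dist (g a) (g b) = b - a := by
    intro a b hab hb
    have := hg a (b - a) (by omega)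
    rwa [Nat.add_sub_cancel' hab] at this
  have hgstep : ∀ i, i < l → A.dist (g i) (g (i + 1)) ≤ 1 := by
    intro i hi
    rw [hgd i (i + 1) (by omega) (by omega)]
    omega
  have hnearg : ∀ k, ∃ τ : ℝ, k ≤ l → τ ∈ I ∧ A.dist (G := G) (g k) (γ τ) ≤ e0 := by
    intro k
    by_cases hk : k ≤ l
    · obtain ⟨τ, hτ, hd⟩ := near hM (le_refl 1) (hg.qg (le_refl 1)) ht1 ht2 hg0 hgl hk
      refine ⟨τ, fun _ => ⟨hτ, ?_⟩⟩
      have h2 : (A.dist (G := G) (g k) (γ τ) : ℝ) ≤ (e0 : ℝ) := by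
        rw [he0]
        push_cast at hd ⊢
        have := Nat.le_ceil ((M (1 : ℝ) (2 * (1 : ℝ)) : NNReal) : ℝ)
        linarith
      exact_mod_cast h2
    · exact ⟨0, fun h => absurd h hk⟩
  choose θ hθ using hnearg
  obtain ⟨i, m, j, σ, N, him, hmj, hjl, hji, hNs, hσ0, hσN, hstep, hΛ, hfar⟩ :=
    hs g l hgstep (by rw [hgd 0 l (Nat.zero_le _) le_rfl]; omega) hsl
  have hθi := hθ i (by omega)
  have hθj := hθ j (by omega)
  obtain ⟨ρ, hQ, hρ0, hρN, hρk⟩ := qg_change' hstep hΛ (p := γ (θ i)) (q := γ (θ j)) (e := e0)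
    (by rw [hσ0]; exact (A.dist_comm (G := G) _ _).trans_le hθi.2) (by rw [hσN]; exact hθj.2)
  have hnears : ∀ k, ∃ τ : ℝ, k ≤ N → τ ∈ I ∧ (A.dist (G := G) (σ k) (γ τ) : ℝ) ≤ e := by
    intro k
    by_cases hk : k ≤ N
    · obtain ⟨τ, hτ, hd⟩ := near hM (by omega) hQ hθi.1 hθj.1 hρ0 hρN
        (show k + 1 ≤ N + 2 by omega)
      refine ⟨τ, fun _ => ⟨hτ, ?_⟩⟩
      rw [hρk k hk, ← hm1] at hd
      refine hd.trans ?_
      rw [he]
      linarith
    · exact ⟨0, fun h => absurd h hk⟩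
  choose τ hτ using hnears
  -- steps
  have hτstep : ∀ k, k < N → |τ (k + 1) - τ k| ≤ δ := by
    intro k hk
    have h1 := hτ k (by omega)
    have h2 := hτ (k + 1) (by omega)
    refine htime _ h2.1 _ h1.1 (2 * e + 1) ?_
    have t1 := A.dist_triangle (G := G) (γ (τ (k + 1))) (σ (k + 1)) (γ (τ k))
    have t2 := A.dist_triangle (G := G) (σ (k + 1)) (σ k) (γ (τ k))
    have s1 := A.dist_comm (G := G) (γ (τ (k + 1))) (σ (k + 1))
    have s2 := A.dist_comm (G := G) (σ (k + 1)) (σ k)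
    have h3 := hstep k hk
    have h4 : (A.dist (G := G) (γ (τ (k + 1))) (γ (τ k)) : ℝ) ≤
        A.dist (G := G) (σ (k + 1)) (γ (τ (k + 1))) + (1 + A.dist (G := G) (σ k) (γ (τ k))) := by
      exact_mod_cast (by omega : A.dist (G := G) (γ (τ (k + 1))) (γ (τ k)) ≤
        A.dist (G := G) (σ (k + 1)) (γ (τ (k + 1))) + (1 + A.dist (G := G) (σ k) (γ (τ k))))
    linarith [h1.2, h2.2]
  have hθe : ∀ k, k ≤ l → (A.dist (G := G) (g k) (γ (θ k)) : ℝ) ≤ e := by
    intro k hk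
    have : (A.dist (G := G) (g k) (γ (θ k)) : ℝ) ≤ (e0 : ℝ) := by exact_mod_cast (hθ k hk).2
    linarith
  have hθstep : ∀ k, k < l → |θ (k + 1) - θ k| ≤ δ := by
    intro k hk
    have h1 := hθ k (by omega)
    have h2 := hθ (k + 1) (by omega)
    refine htime _ h2.1 _ h1.1 (2 * e + 1) ?_
    have t1 := A.dist_triangle (G := G) (γ (θ (k + 1))) (g (k + 1)) (γ (θ k))
    have t2 := A.dist_triangle (G := G) (g (k + 1)) (g k) (γ (θ k))
    have s1 := A.dist_comm (G := G) (γ (θ (k + 1))) (g (k + 1))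
    have s2 := A.dist_comm (G := G) (g (k + 1)) (g k)
    have h3 := hgstep k hk
    have h4 : (A.dist (G := G) (γ (θ (k + 1))) (γ (θ k)) : ℝ) ≤
        A.dist (G := G) (g (k + 1)) (γ (θ (k + 1))) + (1 + A.dist (G := G) (g k) (γ (θ k))) := by
      exact_mod_cast (by omega : A.dist (G := G) (γ (θ (k + 1))) (γ (θ k)) ≤
        A.dist (G := G) (g (k + 1)) (γ (θ (k + 1))) + (1 + A.dist (G := G) (g k) (γ (θ k))))
    linarith [hθe k (by omega), hθe (k + 1) (by omega)]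
  -- closeness of the points from the closeness of the times
  have hclose : ∀ (a b : G) (ta tb : ℝ), ta ∈ I → tb ∈ I →
      (A.dist (G := G) a (γ ta) : ℝ) ≤ e → (A.dist (G := G) b (γ tb) : ℝ) ≤ e →
      |ta - tb| ≤ δ → (A.dist (G := G) a b : ℝ) ≤ K1 := by
    intro a b ta tb hta htb ha hb hab
    have h1 := hspace ta hta tb htb hab
    have t1 := A.dist_triangle (G := G) a (γ ta) b
    have t2 := A.dist_triangle (G := G) (γ ta) (γ tb) b
    have s1 := A.dist_comm (G := G) (γ tb) b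
    have h4 : (A.dist (G := G) a b : ℝ) ≤ A.dist (G := G) a (γ ta) +
        (A.dist (G := G) (γ ta) (γ tb) + A.dist (G := G) b (γ tb)) := by
      exact_mod_cast (by omega : A.dist (G := G) a b ≤ A.dist (G := G) a (γ ta) +
        (A.dist (G := G) (γ ta) (γ tb) + A.dist (G := G) b (γ tb)))
    rw [hK1]
    linarith
  have hle_of : ∀ a b : ℕ, a ≤ b → (b : ℝ) ≤ K1 → ¬ (⌈K1⌉₊ + 1 ≤ a) := by
    intro a b hab hb hcon
    have : ((⌈K1⌉₊ + 1 : ℕ) : ℝ) ≤ (b : ℝ) := by exact_mod_cast hcon.trans hab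
    linarith
  have hm := hθ m (by omega)
  -- the ends
  have hτ0 : |τ 0 - θ i| ≤ δ := by
    have h1 := hτ 0 (Nat.zero_le _)
    refine htime _ h1.1 _ hθi.1 (2 * e + 1) ?_
    have t1 := A.dist_triangle (G := G) (γ (τ 0)) (σ 0) (γ (θ i))
    have s1 := A.dist_comm (G := G) (γ (τ 0)) (σ 0)
    rw [s1] at t1
    have h3 := hθe i (by omega)
    have h4 : (A.dist (G := G) (γ (τ 0)) (γ (θ i)) : ℝ) ≤
        A.dist (G := G) (σ 0) (γ (τ 0)) + A.dist (G := G) (σ 0) (γ (θ i)) := by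
      exact_mod_cast t1
    rw [hσ0] at h4 h1
    linarith [h1.2]
  have hτN : |τ N - θ j| ≤ δ := by
    have h1 := hτ N le_rfl
    refine htime _ h1.1 _ hθj.1 (2 * e + 1) ?_
    have t1 := A.dist_triangle (G := G) (γ (τ N)) (σ N) (γ (θ j))
    have s1 := A.dist_comm (G := G) (γ (τ N)) (σ N)
    rw [s1] at t1
    have h3 := hθe j (by omega)
    have h4 : (A.dist (G := G) (γ (τ N)) (γ (θ j)) : ℝ) ≤
        A.dist (G := G) (σ N) (γ (τ N)) + A.dist (G := G) (σ N) (γ (θ j)) := by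
      exact_mod_cast t1
    rw [hσN] at h4 h1
    linarith [h1.2]
  -- contradiction in the first case
  have fin1 : ∀ k, k ≤ N → |τ k - θ m| ≤ δ → False := by
    intro k hk hkm
    have h1 := hτ k hk
    have h2 := hclose (σ k) (g m) (τ k) (θ m) h1.1 hm.1 h1.2 (hθe m (by omega)) hkm
    exact hle_of _ _ le_rfl h2 (hfar k hk)
  -- contradiction in the second case
  have fin2 : ∀ k, m ≤ k → k ≤ j → |θ k - τ 0| ≤ δ → False := by
    intro k hk hk' hkt
    have h1 := hτ 0 (Nat.zero_le _)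
    have h2 := hclose (g k) (σ 0) (θ k) (τ 0) (hθ k (by omega)).1 h1.1 (hθe k (by omega)) h1.2 hkt
    have h3 := hfar 0 (Nat.zero_le _)
    rw [hσ0, hgd i m him (by omega)] at h3
    rw [hσ0, A.dist_comm, hgd i k (by omega) (by omega)] at h2
    exact hle_of (m - i) (k - i) (by omega) h2 h3
  have fin3 : ∀ k, i ≤ k → k ≤ m → |θ k - τ N| ≤ δ → False := by
    intro k hk hk' hkt
    have h1 := hτ N le_rfl
    have h2 := hclose (g k) (σ N) (θ k) (τ N) (hθ k (by omega)).1 h1.1 (hθe k (by omega)) h1.2 hkt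
    have h3 := hfar N le_rfl
    rw [hσN, A.dist_comm, hgd m j hmj (by omega)] at h3
    rw [hσN, hgd k j (by omega) (by omega)] at h2
    exact hle_of (j - m) (j - k) (by omega) h2 h3
  rw [abs_le] at hτ0 hτN
  have hθs : ∀ a b, b ≤ l → ∀ k, a ≤ k → k < b → |θ (k + 1) - θ k| ≤ δ :=
    fun a b hb k _ hk => hθstep k (by omega)
  rcases le_or_gt (τ 0) (θ m + δ) with c1 | c1
  · rcases le_or_gt (θ m) (τ N + δ) with c2 | c2
    · obtain ⟨k, _, hk, hk'⟩ := ivt τ 0 N (Nat.zero_le _) δ (fun k _ hk => hτstep k hk) (θ m) c1 c2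
      exact fin1 k hk hk'
    · rcases le_or_gt (θ m) (τ 0 + δ) with c3 | c3
      · obtain ⟨k, _, hk, hk'⟩ := ivt' τ 0 N (Nat.zero_le _) δ (fun k _ hk => hτstep k hk) (θ m) c3
          (by linarith)
        exact fin1 k hk hk'
      · -- `θ m` is above both ends
        rcases le_total (τ 0) (τ N) with c4 | c4
        · -- from `i` to `m` the times increase and pass near `τ N`
          obtain ⟨k, hk, hk', hk2⟩ := ivt θ i m him δ (hθs i m (by omega)) (τ N)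
            (by linarith [hτ0.1]) (by linarith)
          exact fin3 k hk hk' hk2
        · obtain ⟨k, hk, hk', hk2⟩ := ivt' θ m j hmj δ (hθs m j (by omega)) (τ 0)
            (by linarith) (by linarith [hτN.1])
          exact fin2 k hk hk' hk2
  · rcases le_or_gt (τ N) (θ m + δ) with c2 | c2
    · obtain ⟨k, _, hk, hk'⟩ := ivt' τ 0 N (Nat.zero_le _) δ (fun k _ hk => hτstep k hk) (θ m)
        (by linarith) c2
      exact fin1 k hk hk'
    · -- `θ m` is below both ends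
      rcases le_total (τ 0) (τ N) with c4 | c4
      · obtain ⟨k, hk, hk', hk2⟩ := ivt θ m j hmj δ (hθs m j (by omega)) (τ 0)
          (by linarith) (by linarith [hτN.2])
        exact fin2 k hk hk' hk2
      · obtain ⟨k, hk, hk', hk2⟩ := ivt' θ i m him δ (hθs i m (by omega)) (τ N)
          (by linarith [hτ0.2]) (by linarith)
        exact fin3 k hk hk' hk2

end Pool.Agent.Y375.SM.ML
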