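import Pool.Agent.Y33.SM.Stm

set_option autoImplicit false
set_option linter.unusedSectionVars false

/-!
# The limit group (project SM of helper33)
-/

namespace Pool.Agent.Y375.SM.Tower

open Pool.Agent.TH54.BU Pool.Agent.Y33.SM

/-! ### quotient distances -/

theorem qd_spec (N : Subgroup F2) [N.Normal] (u v : F2 ⧸ N) :
    ∃ f : F2, (f : F2 ⧸ N) = u⁻¹ * v ∧ f.norm = qd N u v := by
  have hne : {k | ∃ f : F2, (f : F2 ⧸ N) = u⁻¹ * v ∧ f.norm = k}.Nonempty := by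
    obtain ⟨f, hf⟩ := QuotientGroup.mk_surjective (u⁻¹ * v)
    exact ⟨_, f, hf, rfl⟩
  exact Nat.sInf_mem hne

theorem qd_le (N : Subgroup F2) [N.Normal] {u v : F2 ⧸ N} {f : F2}
    (h : (f : F2 ⧸ N) = u⁻¹ * v) : qd N u v ≤ f.norm := Nat.sInf_le ⟨f, h, rfl⟩

theorem qd_coe (N : Subgroup F2) [N.Normal] (x y : F2) :
    qd N (x : F2 ⧸ N) (y : F2 ⧸ N) = qd N 1 ((x⁻¹ * y : F2) : F2 ⧸ N) := by
  unfold qd
  rw [inv_one, one_mul]
  rfl

theorem qd_inv_mul (N : Subgroup F2) [N.Normal] (x y : F2 ⧸ N) :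
    qd N x y = qd N 1 (x⁻¹ * y) := by
  unfold qd
  rw [inv_one, one_mul]

theorem qd_one_le (N : Subgroup F2) [N.Normal] (x : F2) :
    qd N 1 (x : F2 ⧸ N) ≤ x.norm := qd_le N (by rw [inv_one, one_mul])

theorem qd_coe_le (N : Subgroup F2) [N.Normal] (x y : F2) :
    qd N (x : F2 ⧸ N) (y : F2 ⧸ N) ≤ (x⁻¹ * y).norm := by
  rw [qd_coe]
  exact qd_one_le N _

theorem mk_eq {N : Subgroup F2} {x y : F2} :
    (x : F2 ⧸ N) = (y : F2 ⧸ N) ↔ x⁻¹ * y ∈ N := QuotientGroup.eq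

theorem mk_mono {N N' : Subgroup F2} (h : N ≤ N') {x y : F2}
    (hxy : (x : F2 ⧸ N) = (y : F2 ⧸ N)) : (x : F2 ⧸ N') = (y : F2 ⧸ N') := by
  rw [mk_eq] at hxy ⊢
  exact h hxy

theorem qd_anti {N N' : Subgroup F2} [N.Normal] [N'.Normal] (h : N ≤ N') (x : F2) :
    qd N' 1 (x : F2 ⧸ N') ≤ qd N 1 (x : F2 ⧸ N) := by
  obtain ⟨f, hf, hn⟩ := qd_spec N 1 (x : F2 ⧸ N)
  rw [inv_one, one_mul] at hf
  rw [← hn]
  exact qd_le N' (by rw [inv_one, one_mul]; exact mk_mono h hf)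

theorem qd_zero {N : Subgroup F2} [N.Normal] {x : F2} (h : qd N 1 (x : F2 ⧸ N) = 0) : x ∈ N := by
  obtain ⟨f, hf, hn⟩ := qd_spec N 1 (x : F2 ⧸ N)
  rw [h, FreeGroup.norm_eq_zero] at hn
  rw [inv_one, one_mul, hn, mk_eq, inv_one, one_mul] at hf
  exact hf

theorem qd_mem {N : Subgroup F2} [N.Normal] {x : F2} (h : x ∈ N) : qd N 1 (x : F2 ⧸ N) = 0 := by
  have e : (x : F2 ⧸ N) = ((1 : F2) : F2 ⧸ N) := by
    rw [mk_eq, mul_one]
    exact N.inv_mem h
  have := qd_one_le N 1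
  rw [FreeGroup.norm_one] at this
  rw [e]
  omega

/-- lifts of paths -/
theorem lift_path (N : Subgroup F2) [N.Normal] (σ : ℕ → F2 ⧸ N) (n : ℕ)
    (hσ : ∀ k, k < n → qd N (σ k) (σ (k + 1)) ≤ 1) (f0 : F2) (h0 : (f0 : F2 ⧸ N) = σ 0) :
    ∃ τ : ℕ → F2, τ 0 = f0 ∧ (∀ k, k ≤ n → (τ k : F2 ⧸ N) = σ k) ∧
      ∀ k k', k ≤ k' → k' ≤ n → ((τ k)⁻¹ * τ k').norm ≤ k' - k := by
  have hch : ∀ k, ∃ f : F2, (f : F2 ⧸ N) = (σ k)⁻¹ * σ (k + 1) ∧
      f.norm = qd N (σ k) (σ (k + 1)) := fun k => qd_spec N _ _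
  choose s hs1 hs2 using hch
  let τ : ℕ → F2 := fun k => Nat.rec f0 (fun j x => x * s j) k
  have hτ0 : τ 0 = f0 := rfl
  have hτs : ∀ k, τ (k + 1) = τ k * s k := fun k => rfl
  refine ⟨τ, hτ0, ?_, ?_⟩
  · intro k
    induction k with
    | zero => intro _; rw [hτ0, h0]
    | succ k ih =>
      intro hk
      rw [hτs, QuotientGroup.mk_mul, ih (by omega), hs1, mul_inv_cancel_left]
  · intro k k' hk hk'
    induction k' with
    | zero =>
      obtain rfl : k = 0 := by omega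
      rw [inv_mul_cancel, FreeGroup.norm_one]
    | succ m ih =>
      rcases Nat.lt_or_ge m k with h | h
      · obtain rfl : k = m + 1 := by omega
        rw [inv_mul_cancel, FreeGroup.norm_one]
        omega
      · have h1 := ih h (by omega)
        have e : (τ k)⁻¹ * τ (m + 1) = ((τ k)⁻¹ * τ m) * s m := by
          rw [hτs, mul_assoc]
        rw [e]
        have h2 := FreeGroup.norm_mul_le ((τ k)⁻¹ * τ m) (s m)
        have h3 : (s m).norm ≤ 1 := by
          rw [hs2]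
          exact hσ m (by omega)
        omega

/-! ### the sequence -/

/-- the state of the construction -/
structure St (n : ℕ) where
  N : Subgroup F2
  nrm : N.Normal
  i : Fin 2
  i' : Fin 2
  R : ℕ
  s : ℕ
  hi : i ≠ i'
  lev : Lev n N i i' R

attribute [instance] St.nrm

/-- one step -/
structure Stp {n : ℕ} (j : ℕ) (S S' : St n) (D : ℕ) : Prop where
  jD : j ≤ D
  le : S.N ≤ S'.N
  rad : j + 100 * (S.s + S.R + (j + 2) * (D + 1)) ≤ S'.R
  iso : ∀ f : F2, qd S.N 1 (f : F2 ⧸ S.N) ≤ S'.R →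
    qd S'.N 1 (f : F2 ⧸ S'.N) = qd S.N 1 (f : F2 ⧸ S.N)
  cut : ∀ t1 : ℕ, Cut (qd S'.N) (gn S'.N S.i) j j D t1
  det : ∀ (γ : ℕ → F2 ⧸ S'.N) (l : ℕ), (∀ j, j < l → qd S'.N (γ j) (γ (j + 1)) ≤ 1) →
    qd S'.N (γ 0) (γ l) = l → S'.s ≤ l → Det (qd S'.N) (Lam n) (min S.R S'.R) S'.s γ l

theorem step (h : S_STEPF) : ∃ n0 : ℕ, ∀ n : ℕ, n0 ≤ n → Odd n → ∀ (j : ℕ) (S : St n),
    ∃ (S' : St n) (D : ℕ), Stp j S S' D := by
  obtain ⟨n0, hn0⟩ := h
  refine ⟨n0, fun n hn hodd j S => ?_⟩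
  obtain ⟨D0, hD0⟩ := hn0 n hn hodd S.N S.i S.i' S.R S.lev j j
  obtain ⟨N', hN', s, hle, hlev, hiso, hcut, hdet⟩ :=
    hD0 (j + 100 * (S.s + S.R + (j + 2) * (D0 + j + 1)))
  refine ⟨⟨N', hN', S.i', S.i, _, s, S.hi.symm, hlev⟩, D0 + j, ⟨by omega, hle, le_rfl, hiso, ?_,
    hdet⟩⟩
  intro t1 t ht
  exact hcut t1 t (by omega)

section

variable {n : ℕ} (X : ℕ → St n) (D : ℕ → ℕ) (hX : ∀ j, Stp j (X j) (X (j + 1)) (D j))

include hX

theorem N_mono {j k : ℕ} (h : j ≤ k) : (X j).N ≤ (X k).N := by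
  induction h with
  | refl => exact le_rfl
  | @step m _ ih => exact ih.trans (hX m).le

theorem R_mono {j k : ℕ} (h : j ≤ k) : (X j).R ≤ (X k).R := by
  induction h with
  | refl => exact le_rfl
  | @step m _ ih =>
    have := (hX m).rad
    have h2 : (X m).R ≤ (X (m + 1)).R := by nlinarith [Nat.zero_le ((m + 2) * (D m + 1))]
    exact ih.trans h2

theorem iso_later {j k : ℕ} (h : j ≤ k) (f : F2)
    (hf : qd (X j).N 1 (f : F2 ⧸ (X j).N) ≤ (X (j + 1)).R) :
    qd (X k).N 1 (f : F2 ⧸ (X k).N) = qd (X j).N 1 (f : F2 ⧸ (X j).N) := by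
  induction h with
  | refl => rfl
  | @step m hm ih =>
    rw [(hX m).iso f, ih]
    rw [ih]
    exact hf.trans (R_mono X D hX (Nat.succ_le_succ hm))

/-- the limit -/
def Ni (X : ℕ → St n) : Subgroup F2 := ⨆ j, (X j).N

instance (X : ℕ → St n) : (Ni X).Normal := by
  unfold Ni
  exact Subgroup.iSup_normal _

theorem mem_Ni {f : F2} : f ∈ Ni X ↔ ∃ j, f ∈ (X j).N := by
  unfold Ni
  rw [Subgroup.mem_iSup_of_directed]
  exact (show Monotone fun j => (X j).N from fun a b hab => N_mono X D hX hab).directed_le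

theorem le_Ni (j : ℕ) : (X j).N ≤ Ni X := by
  unfold Ni
  exact le_iSup (fun j => (X j).N) j

theorem iso_lim (j : ℕ) (f : F2)
    (hf : qd (X j).N 1 (f : F2 ⧸ (X j).N) ≤ (X (j + 1)).R) :
    qd (Ni X) 1 (f : F2 ⧸ Ni X) = qd (X j).N 1 (f : F2 ⧸ (X j).N) := by
  apply le_antisymm (qd_anti (le_Ni X D hX j) f)
  obtain ⟨g, hg, hn⟩ := qd_spec (Ni X) 1 (f : F2 ⧸ Ni X)
  rw [inv_one, one_mul, mk_eq, mem_Ni X D hX] at hg
  obtain ⟨k, hk⟩ := hg
  have hk' : g⁻¹ * f ∈ (X (max j k)).N := N_mono X D hX (le_max_right _ _) hk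
  have e := iso_later X D hX (le_max_left j k) f hf
  rw [← e, ← hn, ← mk_eq.2 hk']
  exact qd_one_le _ g

theorem iso_norm (j : ℕ) (f : F2) (hf : f.norm ≤ (X (j + 1)).R) :
    qd (Ni X) 1 (f : F2 ⧸ Ni X) = qd (X j).N 1 (f : F2 ⧸ (X j).N) :=
  iso_lim X D hX j f ((qd_one_le _ f).trans hf)

theorem mem_norm (j : ℕ) (f : F2) (hf : f.norm ≤ (X (j + 1)).R) (h : f ∈ Ni X) :
    f ∈ (X j).N := by
  apply qd_zero
  rw [← iso_norm X D hX j f hf]
  exact qd_mem h

theorem R_ge (j : ℕ) : j + 100 * (X j).s + 100 * (j + 2) * (D j + 1) ≤ (X (j + 1)).R := by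
  have := (hX j).rad
  nlinarith [Nat.zero_le ((X j).R)]

theorem str_of_lev (j : ℕ) (a : Fin 2) (k : ℕ) :
    qd (X j).N 1 ((gn (X j).N a) ^ k) = k := by
  obtain ⟨w, hw, _, h1, h2, _, _⟩ := (X j).lev
  have hne := (X j).hi
  have ha : a = (X j).i ∨ a = (X j).i' := by
    revert hne
    generalize (X j).i = x
    generalize (X j).i' = y
    revert a x y
    decide
  rw [← hw]
  rcases ha with rfl | rfl
  · exact h1 k
  · exact h2 k

theorem norm_of_pow (a : Fin 2) (k : ℕ) : ((FreeGroup.of a : F2) ^ k).norm = k :=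
  FreeGroup.norm_of_pow a k

theorem str_lim (a : Fin 2) (k : ℕ) : qd (Ni X) 1 ((gn (Ni X) a) ^ k) = k := by
  have h1 : (X (k + 1)).R ≥ k := by
    have := R_ge X D hX k
    omega
  have h2 := iso_norm X D hX k ((FreeGroup.of a : F2) ^ k)
    (by rw [norm_of_pow X D hX]; exact h1)
  rw [QuotientGroup.mk_pow, QuotientGroup.mk_pow] at h2
  have h3 := str_of_lev X D hX k a k
  unfold gn at h3 ⊢
  rw [h2, h3]

/-- divergence -/
theorem div_lim (C r : ℕ) : ∃ D0 : ℕ, ∀ t : ℕ, D0 ≤ t →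
    Cut (qd (Ni X)) (gn (Ni X) 0) C r t t ∨ Cut (qd (Ni X)) (gn (Ni X) 1) C r t t := by
  refine ⟨∑ m ∈ Finset.range (C + r + 1), D m, fun t ht => ?_⟩
  have hDle : ∀ m, m ≤ C + r → D m ≤ t := by
    intro m hm
    refine le_trans ?_ ht
    exact Finset.single_le_sum (f := D) (fun _ _ => Nat.zero_le _)
      (Finset.mem_range.2 (by omega))
  have hex : ∃ m, t < D m := ⟨t + 1, by have := (hX (t + 1)).jD; omega⟩
  classical
  have hj1 := Nat.find_spec hex
  have hj2 : ∀ m, m < Nat.find hex → D m ≤ t := fun m hm => not_lt.1 (Nat.find_min hex hm)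
  set J := Nat.find hex with hJ
  have hJC : C + r < J := by
    by_contra hcon
    have := hDle J (by omega)
    omega
  obtain ⟨j, hj⟩ : ∃ j, J = j + 1 := ⟨J - 1, by omega⟩
  rw [hj] at hj1 hj2
  have hDj : D j ≤ t := hj2 j (by omega)
  have hrad := R_ge X D hX (j + 1)
  have key : Cut (qd (Ni X)) (gn (Ni X) (X j).i) C r t t := by
    intro t' ht1 ht2 σ M hσ h0 hM hfar
    obtain rfl : t' = t := le_antisymm ht2 ht1
    by_contra hlen
    push Not at hlen
    obtain ⟨τ, hτ0, hτ, hτn⟩ := lift_path (Ni X) σ M hσ ((FreeGroup.of (X j).i : F2) ^ t') (by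
      rw [h0, QuotientGroup.mk_pow]
      rfl)
    -- the norm of the end
    have hbig : (C + 2) * t' ≤ (X (j + 1 + 1)).R := by
      have h1 : (C + 2) * t' ≤ (j + 1 + 2) * (D (j + 1) + 1) :=
        Nat.mul_le_mul (by omega) (by omega)
      have h2 : (j + 1 + 2) * (D (j + 1) + 1) ≤ 100 * (j + 1 + 2) * (D (j + 1) + 1) :=
        Nat.mul_le_mul_right _ (by omega)
      omega
    have hend : (FreeGroup.of (X j).i : F2) ^ t' * τ M ∈ (X (j + 1)).N := by
      apply mem_norm X D hX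
      · have e : (FreeGroup.of (X j).i : F2) ^ t' * τ M =
            ((FreeGroup.of (X j).i : F2) ^ t' * (FreeGroup.of (X j).i : F2) ^ t') *
              ((τ 0)⁻¹ * τ M) := by
          rw [hτ0]
          group
        have h1 := hτn 0 M (Nat.zero_le _) le_rfl
        have h2 := FreeGroup.norm_mul_le
          ((FreeGroup.of (X j).i : F2) ^ t' * (FreeGroup.of (X j).i : F2) ^ t')
          ((τ 0)⁻¹ * τ M)
        have h3 := FreeGroup.norm_mul_le ((FreeGroup.of (X j).i : F2) ^ t')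
          ((FreeGroup.of (X j).i : F2) ^ t')
        rw [norm_of_pow X D hX] at h3
        rw [← e] at h2
        have h4 : (C + 2) * t' = C * t' + t' + t' := by ring
        omega
      · have h1 := hτ M le_rfl
        rw [hM] at h1
        have h2 : (((FreeGroup.of (X j).i : F2) ^ t' * τ M : F2) : F2 ⧸ Ni X) = 1 := by
          rw [QuotientGroup.mk_mul, h1, QuotientGroup.mk_pow]
          exact mul_inv_cancel _
        exact (QuotientGroup.eq_one_iff _).1 h2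
    have hcut := (hX j).cut t' t' hDj le_rfl (fun k => (τ k : F2 ⧸ (X (j + 1)).N)) M ?_ ?_ ?_ ?_
    · have h5 : C * t' ≤ j * t' := Nat.mul_le_mul_right _ (by omega)
      omega
    · intro k hk
      refine (qd_coe_le _ _ _).trans ?_
      have := hτn k (k + 1) (by omega) (by omega)
      omega
    · show (τ 0 : F2 ⧸ (X (j + 1)).N) = _
      rw [hτ0, QuotientGroup.mk_pow]
      rfl
    · show (τ M : F2 ⧸ (X (j + 1)).N) = _
      have h2 : (((FreeGroup.of (X j).i : F2) ^ t' * τ M : F2) : F2 ⧸ (X (j + 1)).N) = 1 :=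
        (QuotientGroup.eq_one_iff _).2 hend
      rw [QuotientGroup.mk_mul, QuotientGroup.mk_pow] at h2
      exact (inv_eq_of_mul_eq_one_right h2).symm
    · intro k hk
      have h1 := hfar k hk
      rw [← hτ k hk] at h1
      have h2 := qd_anti (le_Ni X D hX (j + 1)) (τ k)
      calc t' ≤ r * qd (Ni X) 1 (τ k : F2 ⧸ Ni X) := h1
        _ ≤ j * qd (X (j + 1)).N 1 (τ k : F2 ⧸ (X (j + 1)).N) :=
          Nat.mul_le_mul (by omega) h2
  have hi01 : (X j).i = 0 ∨ (X j).i = 1 := by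
    generalize (X j).i = x
    revert x
    decide
  rcases hi01 with h | h
  · left
    rw [← h]
    exact key
  · right
    rw [← h]
    exact key

/-- detours -/
theorem det_lim (r : ℕ) : ∃ s : ℕ, ∀ (γ : ℕ → F2 ⧸ Ni X) (l : ℕ),
    (∀ i, i < l → qd (Ni X) (γ i) (γ (i + 1)) ≤ 1) →
      qd (Ni X) (γ 0) (γ l) = l → s ≤ l → Det (qd (Ni X)) (Lam n) r s γ l := by
  refine ⟨(X (r + 1 + 1)).s, fun γ l hγ hl hs => ?_⟩
  have hr1 : r ≤ (X (r + 1)).R := by
    have := R_ge X D hX r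
    omega
  have hr2 : r ≤ (X (r + 1 + 1)).R := hr1.trans (R_mono X D hX (by omega))
  have hrad := R_ge X D hX (r + 1 + 1)
  set s := (X (r + 1 + 1)).s with hsdef
  obtain ⟨f0, hf0⟩ := QuotientGroup.mk_surjective (γ 0)
  obtain ⟨τ, hτ0, hτ, hτn⟩ := lift_path (Ni X) γ l hγ f0 hf0
  have h2s : 2 * s ≤ (X (r + 1 + 1 + 1)).R := by omega
  have hdet := (hX (r + 1)).det (fun k => (τ k : F2 ⧸ (X (r + 1 + 1)).N)) s ?_ ?_ le_rfl
  · obtain ⟨i, m, j, σ, M, him, hmj, hjs, hjis, hMs, hσ0, hσM, hσ, hΛ, hfar⟩ := hdet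
    obtain ⟨ρ, hρ0, hρ, hρn⟩ := lift_path (X (r + 1 + 1)).N σ M hσ (τ i) hσ0.symm
    refine ⟨i, m, j, fun k => (ρ k : F2 ⧸ Ni X), M, him, hmj, hjs.trans hs, hjis, hMs, ?_, ?_,
      ?_, ?_, ?_⟩
    · show (ρ 0 : F2 ⧸ Ni X) = γ i
      rw [hρ0]
      exact hτ i (by omega)
    · show (ρ M : F2 ⧸ Ni X) = γ j
      rw [← hτ j (by omega)]
      refine mk_mono (le_Ni X D hX (r + 1 + 1)) ?_
      rw [hρ M le_rfl]
      exact hσM
    · intro k hk
      refine (qd_coe_le _ _ _).trans ?_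
      have := hρn k (k + 1) (by omega) (by omega)
      omega
    · intro k k' hk hk'
      have h1 := hΛ k k' hk hk'
      rw [← hρ k (by omega), ← hρ k' hk', qd_coe] at h1
      have h2 := hρn k k' hk hk'
      have h3 := iso_norm X D hX (r + 1 + 1) ((ρ k)⁻¹ * ρ k') (by omega)
      rw [qd_coe, h3]
      exact h1
    · intro k hk
      have h1 := hfar k hk
      rw [← hρ k hk, qd_coe] at h1
      have h2 := hρn 0 k (Nat.zero_le _) hk
      have h3 := hτn i m him (by omega)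
      have e : (ρ k)⁻¹ * τ m = ((ρ 0)⁻¹ * ρ k)⁻¹ * ((τ i)⁻¹ * τ m) := by
        rw [hρ0]
        group
      have h4 := FreeGroup.norm_mul_le ((ρ 0)⁻¹ * ρ k)⁻¹ ((τ i)⁻¹ * τ m)
      rw [FreeGroup.norm_inv_eq, ← e] at h4
      have h5 := iso_norm X D hX (r + 1 + 1) ((ρ k)⁻¹ * τ m) (by omega)
      rw [← hτ m (by omega), qd_coe, h5]
      refine le_trans ?_ h1
      exact le_min hr1 hr2
  · intro k hk
    refine (qd_coe_le _ _ _).trans ?_
    have := hτn k (k + 1) (by omega) (by omega)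
    omega
  · show qd (X (r + 1 + 1)).N (τ 0 : F2 ⧸ (X (r + 1 + 1)).N) (τ s : F2 ⧸ (X (r + 1 + 1)).N) = s
    have h1 := hτn 0 s (Nat.zero_le _) hs
    have h2 := iso_norm X D hX (r + 1 + 1) ((τ 0)⁻¹ * τ s) (by omega)
    rw [qd_coe, ← h2, ← qd_coe]
    apply le_antisymm
    · refine (qd_coe_le _ _ _).trans ?_
      omega
    · have h3 : qd (Ni X) (γ 0) (γ l) ≤ ((τ 0)⁻¹ * τ l).norm := by
        rw [← hτ 0 (Nat.zero_le _), ← hτ l le_rfl]
        exact qd_coe_le _ _ _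
      -- split at `s`
      obtain ⟨g, hg, hgn⟩ := qd_spec (Ni X) (τ 0 : F2 ⧸ Ni X) (τ s : F2 ⧸ Ni X)
      have h4 : qd (Ni X) (γ 0) (γ l) ≤ (g * ((τ s)⁻¹ * τ l)).norm := by
        apply qd_le
        rw [QuotientGroup.mk_mul, hg, QuotientGroup.mk_mul, QuotientGroup.mk_inv,
          ← hτ 0 (Nat.zero_le _), ← hτ l le_rfl]
        group
      have h5 := FreeGroup.norm_mul_le g ((τ s)⁻¹ * τ l)
      have h6 := hτn s l hs le_rfl
      rw [hl] at h4
      omega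

end

/-! ### the word length -/

open Pool.Agent.H659R3.MorseLim

/-- the generators -/
noncomputable def gens (N : Subgroup F2) [N.Normal] : FinGen (F2 ⧸ N) where
  S := {gn N 0, gn N 1}
  finite := Set.toFinite _
  gen := by
    rw [eq_top_iff]
    rintro x -
    obtain ⟨f, rfl⟩ := QuotientGroup.mk_surjective x
    have hf : f ∈ Subgroup.closure (Set.range (FreeGroup.of : Fin 2 → F2)) := by
      rw [FreeGroup.closure_range_of]
      trivial
    have h1 : (Subgroup.closure (Set.range (FreeGroup.of : Fin 2 → F2))).map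
        (QuotientGroup.mk' N) = Subgroup.closure {gn N 0, gn N 1} := by
      rw [MonoidHom.map_closure]
      congr 1
      ext y
      constructor
      · rintro ⟨_, ⟨a, rfl⟩, rfl⟩
        fin_cases a
        · exact Or.inl rfl
        · exact Or.inr rfl
      · rintro (rfl | rfl)
        · exact ⟨_, ⟨0, rfl⟩, rfl⟩
        · exact ⟨_, ⟨1, rfl⟩, rfl⟩
    rw [← h1]
    exact ⟨f, hf, rfl⟩

theorem len_letter (N : Subgroup F2) [N.Normal] (x : Fin 2 × Bool) :
    (gens N).len ((FreeGroup.mk [x] : F2) : F2 ⧸ N) ≤ 1 := by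
  obtain ⟨a, b⟩ := x
  have h0 : gn N a ∈ (gens N).S := by
    show gn N a ∈ ({gn N 0, gn N 1} : Set (F2 ⧸ N))
    fin_cases a
    · exact Or.inl rfl
    · exact Or.inr rfl
  cases b
  · have e : ((FreeGroup.mk [(a, false)] : F2) : F2 ⧸ N) = (gn N a)⁻¹ := by
      unfold gn
      rw [← QuotientGroup.mk_inv]
      rfl
    rw [e]
    exact (gens N).len_gen (Or.inr (by rw [inv_inv]; exact h0))
  · exact (gens N).len_gen (Or.inl h0)

theorem len_le_norm (N : Subgroup F2) [N.Normal] (f : F2) :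
    (gens N).len (f : F2 ⧸ N) ≤ f.norm := by
  have key : ∀ l : List (Fin 2 × Bool),
      (gens N).len ((FreeGroup.mk l : F2) : F2 ⧸ N) ≤ l.length := by
    intro l
    induction l with
    | nil =>
      have : ((FreeGroup.mk [] : F2) : F2 ⧸ N) = 1 := rfl
      rw [this, (gens N).len_one]
      exact Nat.zero_le _
    | cons x l ih =>
      have e : (FreeGroup.mk (x :: l) : F2) = FreeGroup.mk [x] * FreeGroup.mk l := by
        rw [FreeGroup.mul_mk]
        rfl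
      rw [e, QuotientGroup.mk_mul, List.length_cons]
      have h1 := (gens N).len_mul_le ((FreeGroup.mk [x] : F2) : F2 ⧸ N)
        ((FreeGroup.mk l : F2) : F2 ⧸ N)
      have h2 := len_letter N x
      omega
  have := key f.toWord
  rw [FreeGroup.mk_toWord] at this
  exact this

theorem exists_lift (N : Subgroup F2) [N.Normal] (l : List (F2 ⧸ N)) (hl : (gens N).IsW l) :
    ∃ f : F2, (f : F2 ⧸ N) = l.prod ∧ f.norm ≤ l.length := by
  induction l with
  | nil => exact ⟨1, rfl, by rw [FreeGroup.norm_one]; exact Nat.zero_le _⟩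
  | cons x l ih =>
    obtain ⟨f, hf, hn⟩ := ih fun y hy => hl y (List.mem_cons_of_mem _ hy)
    have hgen : ∀ y : F2 ⧸ N, y ∈ (gens N).S → ∃ g : F2, (g : F2 ⧸ N) = y ∧ g.norm ≤ 1 := by
      rintro y (rfl | rfl)
      · exact ⟨FreeGroup.of 0, rfl, by rw [FreeGroup.norm_of]⟩
      · exact ⟨FreeGroup.of 1, rfl, by rw [FreeGroup.norm_of]⟩
    obtain ⟨g, hg, hgn⟩ : ∃ g : F2, (g : F2 ⧸ N) = x ∧ g.norm ≤ 1 := by
      rcases hl x (List.mem_cons_self) with h | h
      · exact hgen x h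
      · obtain ⟨g, hg, hgn⟩ := hgen _ h
        exact ⟨g⁻¹, by rw [QuotientGroup.mk_inv, hg, inv_inv], by
          rw [FreeGroup.norm_inv_eq]; exact hgn⟩
    refine ⟨g * f, by rw [QuotientGroup.mk_mul, hg, hf, List.prod_cons], ?_⟩
    have := FreeGroup.norm_mul_le g f
    rw [List.length_cons]
    omega

theorem len_eq (N : Subgroup F2) [N.Normal] (x : F2 ⧸ N) : (gens N).len x = qd N 1 x := by
  apply le_antisymm
  · obtain ⟨f, hf, hn⟩ := qd_spec N 1 x
    rw [inv_one, one_mul] at hf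
    rw [← hn, ← hf]
    exact len_le_norm N f
  · obtain ⟨l, h1, h2, h3⟩ := (gens N).len_spec x
    obtain ⟨f, hf, hn⟩ := exists_lift N l h2
    rw [← h1]
    refine le_trans (qd_le N ?_) hn
    rw [inv_one, one_mul, hf, h3]

theorem dist_eq (N : Subgroup F2) [N.Normal] : (gens N).dist = qd N := by
  funext x y
  rw [qd_inv_mul]
  exact len_eq N _

theorem t (h : S_STEPF) (b : S_BASE) : S_TOWER := by
  obtain ⟨n0, hn0⟩ := step h
  have hodd : Odd (2 * n0 + 1) := ⟨n0, rfl⟩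
  have hst := hn0 (2 * n0 + 1) (by omega) hodd
  choose nx D hnx using hst
  let X : ℕ → St (2 * n0 + 1) := fun j => Nat.rec
    (⟨⊥, inferInstance, 0, 1, 0, 0, by decide, b (2 * n0 + 1)⟩ : St (2 * n0 + 1))
    (fun j S => nx j S) j
  have hX : ∀ j, Stp j (X j) (X (j + 1)) (D j (X j)) := fun j => hnx j (X j)
  refine ⟨F2 ⧸ Ni X, inferInstance, gens (Ni X), gn (Ni X) 0, gn (Ni X) 1, Lam (2 * n0 + 1),
    ?_, ?_, ?_, ?_⟩
  · intro k
    rw [len_eq]
    exact str_lim X (fun j => D j (X j)) hX 0 k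
  · intro k
    rw [len_eq]
    exact str_lim X (fun j => D j (X j)) hX 1 k
  · rw [dist_eq]
    exact div_lim X (fun j => D j (X j)) hX
  · rw [dist_eq]
    exact det_lim X (fun j => D j (X j)) hX

end Pool.Agent.Y375.SM.Tower
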